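import Mathlib
import Pool.Agent.Helper852.OF.Main

set_option autoImplicit false

namespace Pool.Agent.W247.OF

open SimpleGraph

/-- Attach one pendant vertex `inr v` to every vertex `inl v` of `G`. -/
def pend {V : Type} (G : SimpleGraph V) : SimpleGraph (V ⊕ V) where
  Adj x y := (∃ v w, x = Sum.inl v ∧ y = Sum.inl w ∧ G.Adj v w) ∨
    (∃ v, x = Sum.inl v ∧ y = Sum.inr v) ∨ (∃ v, x = Sum.inr v ∧ y = Sum.inl v)
  symm := ⟨by
    rintro x y (⟨v, w, rfl, rfl, h⟩ | ⟨v, rfl, rfl⟩ | ⟨v, rfl, rfl⟩)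
    · exact Or.inl ⟨w, v, rfl, rfl, h.symm⟩
    · exact Or.inr (Or.inr ⟨v, rfl, rfl⟩)
    · exact Or.inr (Or.inl ⟨v, rfl, rfl⟩)⟩
  loopless := ⟨by
    rintro x (⟨v, w, rfl, h, h'⟩ | ⟨v, rfl, h⟩ | ⟨v, rfl, h⟩)
    · exact h'.ne (Sum.inl_injective h)
    · simp at h
    · simp at h⟩

theorem pend_acyclic {V : Type} (G : SimpleGraph V) (hG : G.IsAcyclic) : (pend G).IsAcyclic := by
  rw [isAcyclic_iff_forall_adj_isBridge] at hG ⊢
  intro x y hxy
  have key : ∀ v : V, ∀ z : V ⊕ V, z ≠ Sum.inr v → 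
      ¬ ((pend G).deleteEdges {s(Sum.inl v, Sum.inr v)}).Reachable (Sum.inr v) z := by
    rintro v z hz ⟨p⟩
    cases p with
    | nil => exact hz rfl
    | cons h q =>
      rw [deleteEdges_adj] at h
      rcases h with ⟨⟨a, b, ha, -, -⟩ | ⟨a, ha, -⟩ | ⟨a, ha, hb⟩, h2⟩
      · simp at ha
      · simp at ha
      · simp only [Sum.inr.injEq] at ha
        subst ha; subst hb
        exact h2 (by simp [Sym2.eq_swap])
  rw [isBridge_iff]
  rcases hxy with ⟨v, w, rfl, rfl, h⟩ | ⟨v, rfl, rfl⟩ | ⟨v, rfl, rfl⟩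
  · intro hr
    have hb := hG h
    rw [isBridge_iff] at hb
    apply hb
    have : ∀ x y : V ⊕ V, ((pend G).deleteEdges {s(Sum.inl v, Sum.inl w)}).Reachable x y →
        (G.deleteEdges {s(v, w)}).Reachable (Sum.elim id id x) (Sum.elim id id y) := by
      rintro x y ⟨p⟩
      induction p with
      | nil => exact Reachable.refl _
      | @cons a b c hab q ih =>
        refine Reachable.trans ?_ ih
        rw [deleteEdges_adj] at hab
        rcases hab with ⟨⟨a, b, rfl, rfl, h1⟩ | ⟨a, rfl, rfl⟩ | ⟨a, rfl, rfl⟩, h2⟩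
        · apply Adj.reachable
          rw [deleteEdges_adj]
          refine ⟨h1, ?_⟩
          intro h3
          apply h2
          simp only [Sum.elim_inl, id, Set.mem_singleton_iff, Sym2.eq_iff] at h3 ⊢
          simpa using h3
        · exact Reachable.refl _
        · exact Reachable.refl _
    exact this _ _ hr
  · intro hr
    exact key v (Sum.inl v) (by simp) hr.symm
  · intro hr
    rw [Sym2.eq_swap] at hr
    exact key v (Sum.inl v) (by simp) hr

/-- position of the vertices: rows, pendant rows, columns, pendant columns -/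
def pos (k l : ℕ) : Fin (k + l + (l + k)) → (Fin k ⊕ Fin l) ⊕ (Fin k ⊕ Fin l) :=
  fun x => Sum.elim (fun y => Sum.elim (fun i => Sum.inl (Sum.inl i)) (fun j => Sum.inr (Sum.inr j))
      (finSumFinEquiv.symm y))
    (fun y => Sum.elim (fun j => Sum.inl (Sum.inr j)) (fun i => Sum.inr (Sum.inl i))
      (finSumFinEquiv.symm y)) (finSumFinEquiv.symm x)

theorem pos_row (k l : ℕ) (i : Fin k) :
    pos k l (Fin.castAdd _ (Fin.castAdd _ i)) = Sum.inl (Sum.inl i) := by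
  simp [pos]

theorem pos_prow (k l : ℕ) (j : Fin l) :
    pos k l (Fin.castAdd _ (Fin.natAdd _ j)) = Sum.inr (Sum.inr j) := by
  simp [pos]

theorem pos_col (k l : ℕ) (j : Fin l) :
    pos k l (Fin.natAdd _ (Fin.castAdd _ j)) = Sum.inl (Sum.inr j) := by
  simp [pos]

theorem pos_pcol (k l : ℕ) (i : Fin k) :
    pos k l (Fin.natAdd _ (Fin.natAdd _ i)) = Sum.inr (Sum.inl i) := by
  simp [pos]

theorem pos_cases (k l : ℕ) (x : Fin (k + l + (l + k))) :
    (∃ i, x = Fin.castAdd _ (Fin.castAdd _ i)) ∨ (∃ j, x = Fin.castAdd _ (Fin.natAdd _ j)) ∨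
    (∃ j, x = Fin.natAdd _ (Fin.castAdd _ j)) ∨ (∃ i, x = Fin.natAdd _ (Fin.natAdd _ i)) := by
  refine Fin.addCases (fun y => ?_) (fun y => ?_) x
  · refine Fin.addCases (fun i => ?_) (fun j => ?_) y
    · exact Or.inl ⟨i, rfl⟩
    · exact Or.inr (Or.inl ⟨j, rfl⟩)
  · refine Fin.addCases (fun j => ?_) (fun i => ?_) y
    · exact Or.inr (Or.inr (Or.inl ⟨j, rfl⟩))
    · exact Or.inr (Or.inr (Or.inr ⟨i, rfl⟩))

theorem pos_inj (k l : ℕ) : Function.Injective (pos k l) := by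
  intro x y h
  rcases pos_cases k l x with ⟨i, rfl⟩ | ⟨i, rfl⟩ | ⟨i, rfl⟩ | ⟨i, rfl⟩ <;>
  rcases pos_cases k l y with ⟨j, rfl⟩ | ⟨j, rfl⟩ | ⟨j, rfl⟩ | ⟨j, rfl⟩ <;>
  simp only [pos_row, pos_prow, pos_col, pos_pcol, Sum.inl.injEq, Sum.inr.injEq, reduceCtorEq] at h <;>
  subst h <;> rfl

/-- ordered bipartite graph of a matrix -/
def gA {n : ℕ} (A : Finset (Fin n × Fin n)) : SimpleGraph (Fin (n + n)) where
  Adj x y := (∃ p ∈ A, x = Fin.castAdd n p.1 ∧ y = Fin.natAdd n p.2) ∨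
    (∃ p ∈ A, y = Fin.castAdd n p.1 ∧ x = Fin.natAdd n p.2)
  symm := ⟨by
    rintro x y (⟨p, hp, h1, h2⟩ | ⟨p, hp, h1, h2⟩)
    · exact Or.inr ⟨p, hp, h1, h2⟩
    · exact Or.inl ⟨p, hp, h1, h2⟩⟩
  loopless := ⟨by
    rintro x (⟨p, hp, h1, h2⟩ | ⟨p, hp, h1, h2⟩) <;>
    · have := h1.symm.trans h2
      have h3 := congrArg Fin.val this
      simp at h3
      have := p.1.2
      omega⟩

theorem gA_lt {n : ℕ} (A : Finset (Fin n × Fin n)) {x y : Fin (n + n)} (h : (gA A).Adj x y)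
    (hxy : x < y) : ∃ p ∈ A, x = Fin.castAdd n p.1 ∧ y = Fin.natAdd n p.2 := by
  rcases h with h | ⟨p, hp, rfl, rfl⟩
  · exact h
  · exfalso
    have := p.1.2
    rw [Fin.lt_def] at hxy
    simp at hxy
    omega

theorem card_le {n : ℕ} (A : Finset (Fin n × Fin n)) : A.card ≤ (gA A).edgeSet.ncard := by
  classical
  have hinj : Set.InjOn (fun p : Fin n × Fin n => s(Fin.castAdd n p.1, Fin.natAdd n p.2)) A := by
    intro p _ q _ h
    simp only [Sym2.eq_iff] at h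
    rcases h with ⟨h1, h2⟩ | ⟨h1, h2⟩
    · exact Prod.ext (Fin.castAdd_injective _ _ h1) (Fin.natAdd_injective _ _ h2)
    · exfalso
      have h3 := congrArg Fin.val h1
      simp at h3
      have := p.1.2
      omega
  rw [← Finset.card_image_of_injOn hinj, ← Set.ncard_coe_finset]
  apply Set.ncard_le_ncard _ (Set.toFinite _)
  intro e he
  simp only [Finset.coe_image, Set.mem_image, Finset.mem_coe] at he
  obtain ⟨p, hp, rfl⟩ := he
  rw [mem_edgeSet]
  exact Or.inl ⟨p, hp, rfl, rfl⟩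

theorem main (k l : ℕ) (M : Finset (Fin k × Fin l))
    (hM : (SimpleGraph.fromRel (fun x y : Fin k ⊕ Fin l =>
          ∃ i j, x = Sum.inl i ∧ y = Sum.inr j ∧ (i, j) ∈ M)).IsAcyclic)
    (c : ℝ) (hc : 1 < c) (ε : ℝ) (hε : 0 < ε) : ∃ N : ℕ, ∀ n : ℕ, N ≤ n →
        ∀ A : Finset (Fin n × Fin n),
          (¬ ∃ f : Fin k → Fin n, StrictMono f ∧ ∃ g : Fin l → Fin n, StrictMono g ∧
              ∀ p ∈ M, (f p.1, g p.2) ∈ A) →
          (A.card : ℝ) ≤ ε * (n : ℝ) ^ c := by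
  obtain ⟨G, hG⟩ : ∃ G, G = (SimpleGraph.fromRel (fun x y : Fin k ⊕ Fin l =>
          ∃ i j, x = Sum.inl i ∧ y = Sum.inr j ∧ (i, j) ∈ M)) := ⟨_, rfl⟩
  rw [← hG] at hM
  have hadj : ∀ p ∈ M, G.Adj (Sum.inl p.1) (Sum.inr p.2) := by
    intro p hp
    rw [hG, fromRel_adj]
    exact ⟨by simp, Or.inl ⟨p.1, p.2, rfl, rfl, hp⟩⟩
  have hbip : ∀ x y, G.Adj x y → (∃ i j, x = Sum.inl i ∧ y = Sum.inr j) ∨
      (∃ i j, y = Sum.inl i ∧ x = Sum.inr j) := by
    intro x y h
    rw [hG, fromRel_adj] at h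
    rcases h.2 with ⟨i, j, h1, h2, -⟩ | ⟨i, j, h1, h2, -⟩
    · exact Or.inl ⟨i, j, h1, h2⟩
    · exact Or.inr ⟨i, j, h1, h2⟩
  obtain ⟨F, hF⟩ : ∃ F : SimpleGraph (Fin (k + l + (l + k))), F = (pend G).comap (pos k l) :=
    ⟨_, rfl⟩
  have hFac : F.IsAcyclic := by
    rw [hF]
    exact IsAcyclic.comap ⟨pos k l, fun {a b} h => h⟩ (pos_inj k l) (pend_acyclic G hM)
  have hint : ∀ x y : Fin (k + l + (l + k)), F.Adj x y → (x.val < k + l ↔ k + l ≤ y.val) := by
    intro x y h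
    rw [hF, comap_adj] at h
    rcases pos_cases k l x with ⟨i, rfl⟩ | ⟨i, rfl⟩ | ⟨i, rfl⟩ | ⟨i, rfl⟩ <;>
    rcases pos_cases k l y with ⟨j, rfl⟩ | ⟨j, rfl⟩ | ⟨j, rfl⟩ | ⟨j, rfl⟩ <;>
    simp only [pos_row, pos_prow, pos_col, pos_pcol] at h
    · exfalso
      rcases h with ⟨a, b, h1, h2, h3⟩ | ⟨a, h1, h2⟩ | ⟨a, h1, h2⟩
      · simp only [Sum.inl.injEq] at h1 h2
        subst h1; subst h2
        rcases hbip _ _ h3 with ⟨_, _, h4, h5⟩ | ⟨_, _, h4, h5⟩ <;> simp at h4 h5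
      · simp at h2
      · simp at h1
    · exfalso
      rcases h with ⟨a, b, h1, h2, h3⟩ | ⟨a, h1, h2⟩ | ⟨a, h1, h2⟩
      · simp at h2
      · simp only [Sum.inl.injEq, Sum.inr.injEq] at h1 h2
        rw [← h1] at h2
        simp at h2
      · simp at h1
    · have := i.2
      simp
      omega
    · have := i.2
      simp
      omega
    · exfalso
      rcases h with ⟨a, b, h1, h2, h3⟩ | ⟨a, h1, h2⟩ | ⟨a, h1, h2⟩
      · simp at h1
      · simp at h1
      · simp only [Sum.inl.injEq, Sum.inr.injEq] at h1 h2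
        rw [← h1] at h2
        simp at h2
    · exfalso
      rcases h with ⟨a, b, h1, h2, h3⟩ | ⟨a, h1, h2⟩ | ⟨a, h1, h2⟩
      · simp at h1
      · simp at h1
      · simp at h2
    · have := i.2
      simp
    · have := i.2
      simp
    · have := j.2
      simp
      omega
    · have := j.2
      simp
    · exfalso
      rcases h with ⟨a, b, h1, h2, h3⟩ | ⟨a, h1, h2⟩ | ⟨a, h1, h2⟩
      · simp only [Sum.inl.injEq] at h1 h2
        subst h1; subst h2
        rcases hbip _ _ h3 with ⟨_, _, h4, h5⟩ | ⟨_, _, h4, h5⟩ <;> simp at h4 h5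
      · simp at h2
      · simp at h1
    · exfalso
      rcases h with ⟨a, b, h1, h2, h3⟩ | ⟨a, h1, h2⟩ | ⟨a, h1, h2⟩
      · simp at h2
      · simp only [Sum.inl.injEq, Sum.inr.injEq] at h1 h2
        rw [← h1] at h2
        simp at h2
      · simp at h1
    · have := j.2
      simp
      omega
    · have := j.2
      simp
    · exfalso
      rcases h with ⟨a, b, h1, h2, h3⟩ | ⟨a, h1, h2⟩ | ⟨a, h1, h2⟩
      · simp at h1
      · simp at h1
      · simp only [Sum.inl.injEq, Sum.inr.injEq] at h1 h2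
        rw [← h1] at h2
        simp at h2
    · exfalso
      rcases h with ⟨a, b, h1, h2, h3⟩ | ⟨a, h1, h2⟩ | ⟨a, h1, h2⟩
      · simp at h1
      · simp at h1
      · simp at h2
  obtain ⟨N, hN⟩ := H852OF.main _ F hFac ⟨k + l, hint⟩ ((c - 1) / 2) (by linarith)
  -- numeric part
  have hlim := tendsto_rpow_atTop (y := (c - 1) / 2) (by linarith)
  obtain ⟨N2, hN2⟩ := (hlim.comp tendsto_natCast_atTop_atTop).eventually_ge_atTop
    ((2 : ℝ) ^ (1 + (c - 1) / 2) / ε) |>.exists_forall_of_atTop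
  refine ⟨max (max N N2) 1, fun n hn A hA => ?_⟩
  have hn1 : N ≤ n := le_trans (le_max_left _ _) (le_trans (le_max_left _ _) hn)
  have hn2 : N2 ≤ n := le_trans (le_max_right _ _) (le_trans (le_max_left _ _) hn)
  have hn3 : 1 ≤ n := le_trans (le_max_right _ _) hn
  have h1 : ((gA A).edgeSet.ncard : ℝ) ≤ ((n + n : ℕ) : ℝ) ^ (1 + (c - 1) / 2) := by
    apply hN (n + n) (by omega)
    rintro ⟨f, hf, hfa⟩
    apply hA
    have hrow : ∀ i : Fin k, (f (Fin.castAdd _ (Fin.castAdd _ i))).val < n := by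
      intro i
      have h : F.Adj (Fin.castAdd _ (Fin.castAdd _ i)) (Fin.natAdd _ (Fin.natAdd _ i)) := by
        rw [hF, comap_adj, pos_row, pos_pcol]
        exact Or.inr (Or.inl ⟨_, rfl, rfl⟩)
      obtain ⟨p, hp, h1, h2⟩ := gA_lt A (hfa _ _ h) (hf (by
        rw [Fin.lt_def]; have := i.2; simp; omega))
      rw [h1]
      simp
    have hcol : ∀ j : Fin l, n ≤ (f (Fin.natAdd _ (Fin.castAdd _ j))).val := by
      intro j
      have h : F.Adj (Fin.castAdd _ (Fin.natAdd _ j)) (Fin.natAdd _ (Fin.castAdd _ j)) := by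
        rw [hF, comap_adj, pos_prow, pos_col]
        exact Or.inr (Or.inr ⟨_, rfl, rfl⟩)
      obtain ⟨p, hp, h1, h2⟩ := gA_lt A (hfa _ _ h) (hf (by
        rw [Fin.lt_def]; have := j.2; simp; omega))
      rw [h2]
      simp
    refine ⟨fun i => ⟨(f (Fin.castAdd _ (Fin.castAdd _ i))).val, hrow i⟩, ?_,
      fun j => ⟨(f (Fin.natAdd _ (Fin.castAdd _ j))).val - n, ?_⟩, ?_, ?_⟩
    · intro i i' h
      rw [Fin.lt_def]
      have : f (Fin.castAdd _ (Fin.castAdd _ i)) < f (Fin.castAdd _ (Fin.castAdd _ i')) := hf (by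
        rw [Fin.lt_def] at h ⊢; simpa using h)
      exact this
    · have := (f (Fin.natAdd _ (Fin.castAdd _ j))).2
      have := hcol j
      omega
    · intro j j' h
      rw [Fin.lt_def]
      have : f (Fin.natAdd _ (Fin.castAdd _ j)) < f (Fin.natAdd _ (Fin.castAdd _ j')) := hf (by
        rw [Fin.lt_def] at h ⊢; simpa using h)
      rw [Fin.lt_def] at this
      have := hcol j
      simp only
      omega
    · intro p hp
      have h : F.Adj (Fin.castAdd _ (Fin.castAdd _ p.1)) (Fin.natAdd _ (Fin.castAdd _ p.2)) := by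
        rw [hF, comap_adj, pos_row, pos_col]
        exact Or.inl ⟨_, _, rfl, rfl, hadj p hp⟩
      obtain ⟨q, hq, h1, h2⟩ := gA_lt A (hfa _ _ h) (hf (by
        rw [Fin.lt_def]; have := p.1.2; simp; omega))
      have e : ((⟨(f (Fin.castAdd _ (Fin.castAdd _ p.1))).val, hrow p.1⟩ : Fin n),
          (⟨(f (Fin.natAdd _ (Fin.castAdd _ p.2))).val - n, by
            have := (f (Fin.natAdd _ (Fin.castAdd _ p.2))).2
            have := hcol p.2
            omega⟩ : Fin n)) = q := by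
        apply Prod.ext
        · apply Fin.ext
          simp [h1]
        · apply Fin.ext
          simp [h2]
      rw [e]
      exact hq
  have h2 : (A.card : ℝ) ≤ ((gA A).edgeSet.ncard : ℝ) := by exact_mod_cast card_le A
  have h3 := hN2 n hn2
  simp only [Function.comp] at h3
  rw [div_le_iff₀ hε] at h3
  have hnpos : (0 : ℝ) < n := by exact_mod_cast hn3
  calc (A.card : ℝ) ≤ ((n + n : ℕ) : ℝ) ^ (1 + (c - 1) / 2) := h2.trans h1
    _ = (2 : ℝ) ^ (1 + (c - 1) / 2) * (n : ℝ) ^ (1 + (c - 1) / 2) := by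
      rw [← Real.mul_rpow (by norm_num) hnpos.le]
      congr 1
      push_cast
      ring
    _ ≤ ((n : ℝ) ^ ((c - 1) / 2) * ε) * (n : ℝ) ^ (1 + (c - 1) / 2) := by
      gcongr
    _ = ε * (n : ℝ) ^ c := by
      have : c = (c - 1) / 2 + (1 + (c - 1) / 2) := by ring
      conv_rhs => rw [this, Real.rpow_add hnpos]
      ring

end Pool.Agent.W247.OF
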